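import Pool.Agent.H37.UM.Stmts

set_option autoImplicit false

namespace Pool.Agent.H37.UM

open PowerSeries Finset

namespace CNT

/-- number of `m ≤ N` with odd part at most `M` -/
def C (N M : ℕ) : ℕ := ((Icc 1 N).filter (fun m => op m ≤ M)).card

theorem C_le (N M : ℕ) : C N M ≤ N := by
  unfold C
  refine (Finset.card_filter_le _ _).trans ?_
  rw [Nat.card_Icc]
  omega

theorem C_step (h : OPStmt) (N M : ℕ) : C N M ≤ (M + 1) / 2 + C (N / 2) M := by
  unfold C
  have hsub : (Icc 1 N).filter (fun m => op m ≤ M) ⊆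
      (range ((M + 1) / 2)).image (fun j => 2 * j + 1) ∪
        ((Icc 1 (N / 2)).filter (fun m => op m ≤ M)).image (fun m => 2 * m) := by
    intro m hm
    rw [Finset.mem_filter, Finset.mem_Icc] at hm
    rw [Finset.mem_union, Finset.mem_image, Finset.mem_image]
    obtain ⟨n, hn | hn⟩ := Nat.even_or_odd' m
    · right
      refine ⟨n, ?_, hn.symm⟩
      rw [Finset.mem_filter, Finset.mem_Icc]
      have h1 := h.2.1 n (by omega)
      rw [← hn] at h1
      exact ⟨⟨by omega, by omega⟩, by omega⟩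
    · left
      refine ⟨n, ?_, hn.symm⟩
      rw [Finset.mem_range]
      have h1 := h.2.2 n
      rw [← hn] at h1
      omega
  refine (Finset.card_le_card hsub).trans ((Finset.card_union_le _ _).trans ?_)
  have h1 := Finset.card_image_le (s := range ((M + 1) / 2)) (f := fun j => 2 * j + 1)
  have h2 := Finset.card_image_le (s := (Icc 1 (N / 2)).filter (fun m => op m ≤ M))
    (f := fun m => 2 * m)
  rw [Finset.card_range] at h1
  omega

theorem C_bound (h : OPStmt) (M t : ℕ) :
    ∀ N, (C N M : ℝ) ≤ t * (((M : ℝ) + 1) / 2) + N / 2 ^ t := by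
  induction t with
  | zero =>
    intro N
    have : (C N M : ℝ) ≤ N := by exact_mod_cast C_le N M
    simpa using this
  | succ t ih =>
    intro N
    have h1 : (C N M : ℝ) ≤ ((M + 1) / 2 : ℕ) + C (N / 2) M := by exact_mod_cast C_step h N M
    have h2 : (((M + 1) / 2 : ℕ) : ℝ) ≤ ((M : ℝ) + 1) / 2 := by
      have := @Nat.cast_div_le ℝ _ _ _ (M + 1) 2
      push_cast at this
      exact this
    have h3 : ((N / 2 : ℕ) : ℝ) ≤ (N : ℝ) / 2 := by
      have := @Nat.cast_div_le ℝ _ _ _ N 2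
      push_cast at this
      exact this
    have h4 := ih (N / 2)
    have h5 : ((N / 2 : ℕ) : ℝ) / 2 ^ t ≤ ((N : ℝ) / 2) / 2 ^ t := by gcongr
    have h6 : ((N : ℝ) / 2) / 2 ^ t = (N : ℝ) / 2 ^ (t + 1) := by
      rw [pow_succ]
      field_simp
    push_cast
    linarith

end CNT

theorem CNT_thm (h : OPStmt) : CNTStmt := by
  intro N k M hk hN hM
  have hM1 : 1 ≤ M := by omega
  have hMN : M ≤ N := by omega
  have hM0 : (0 : ℝ) < M := by exact_mod_cast hM1
  have hN0 : (0 : ℝ) < N := by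
    have : 0 < N := by omega
    exact_mod_cast this
  have hcard : (N : ℝ) ≤ (((Icc 1 N).filter (fun m => k < 2 * op m - 1)).card : ℝ) +
      (CNT.C N M : ℝ) := by
    have h1 := Finset.card_filter_add_card_filter_not (s := Icc 1 N) (fun m => k < 2 * op m - 1)
    rw [Nat.card_Icc] at h1
    have h2 : ((Icc 1 N).filter (fun m => ¬ k < 2 * op m - 1)).card ≤ CNT.C N M := by
      unfold CNT.C
      refine Finset.card_le_card fun m hm => ?_
      rw [Finset.mem_filter] at hm ⊢
      exact ⟨hm.1, by omega⟩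
    have h3 : N ≤ ((Icc 1 N).filter (fun m => k < 2 * op m - 1)).card + CNT.C N M := by omega
    exact_mod_cast h3
  have hlog2 : 0 < Real.log 2 := Real.log_pos (by norm_num)
  set L : ℝ := Real.log (N / M) / Real.log 2 with hL
  have hNM : (1 : ℝ) ≤ (N : ℝ) / M := by
    rw [le_div_iff₀ hM0, one_mul]
    exact_mod_cast hMN
  have hL0 : 0 ≤ L := div_nonneg (Real.log_nonneg hNM) hlog2.le
  have ht1 : L ≤ (⌈L⌉₊ : ℝ) := Nat.le_ceil L
  have ht2 : (⌈L⌉₊ : ℝ) < L + 1 := Nat.ceil_lt_add_one hL0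
  have hb := CNT.C_bound h M ⌈L⌉₊ N
  have hpow : (N : ℝ) / 2 ^ ⌈L⌉₊ ≤ M := by
    rw [div_le_iff₀ (by positivity), ← div_le_iff₀' hM0]
    have h4 : (N : ℝ) / M = (2 : ℝ) ^ L := by
      rw [hL, Real.rpow_def_of_pos (by norm_num : (0 : ℝ) < 2), mul_div_cancel₀ _ hlog2.ne',
        Real.exp_log (by positivity)]
    rw [h4, ← Real.rpow_natCast 2 ⌈L⌉₊]
    exact Real.rpow_le_rpow_of_exponent_le (by norm_num) ht1
  have h5 : (⌈L⌉₊ : ℝ) * (((M : ℝ) + 1) / 2) ≤ (L + 1) * (((M : ℝ) + 1) / 2) :=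
    mul_le_mul_of_nonneg_right ht2.le (by positivity)
  have h6 : 0 ≤ Real.log N / Real.log 2 / 2 := by
    have : (1 : ℝ) ≤ N := by
      have : 1 ≤ N := by omega
      exact_mod_cast this
    have := Real.log_nonneg this
    positivity
  nlinarith [h5, h6, hb, hpow, hcard]

end Pool.Agent.H37.UM
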