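import Pool.Agent.H37.UM.Stmts

set_option autoImplicit false

namespace Pool.Agent.H37.UM

open PowerSeries Finset

namespace SG

/-- sum of the squares of the odd parts -/
noncomputable def A (N : ℕ) : ℝ := ∑ m ∈ Icc 1 N, (op m : ℝ) ^ 2

theorem A_succ (N : ℕ) : A (N + 1) = A N + (op (N + 1) : ℝ) ^ 2 := by
  unfold A
  rw [Finset.sum_Icc_succ_top (by omega)]

theorem A_zero : A 0 = 0 := by
  unfold A
  simp

theorem A_double (h : OPStmt) (n : ℕ) : A (2 * n) = (4 * (n : ℝ) ^ 3 - n) / 3 + A n := by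
  induction n with
  | zero => simp [A_zero]
  | succ n ih =>
    have h1 : 2 * (n + 1) = (2 * n + 1) + 1 := by ring
    have h2 : op (2 * n + 1) = 2 * n + 1 := h.2.2 n
    have h3 : op (2 * n + 1 + 1) = op (n + 1) := by
      rw [← h1]
      exact h.2.1 (n + 1) (by omega)
    rw [h1, A_succ, A_succ, ih, A_succ n, h2, h3]
    push_cast
    ring

theorem A_bounds (h : OPStmt) (N : ℕ) :
    4 / 21 * (N : ℝ) ^ 3 - N / 3 ≤ A N ∧ A N ≤ 4 / 21 * (N : ℝ) ^ 3 + (N : ℝ) ^ 2 := by
  induction N using Nat.strong_induction_on with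
  | _ N ih =>
    rcases Nat.eq_zero_or_pos N with h0 | h0
    · subst h0
      rw [A_zero]
      norm_num
    · obtain ⟨n, hn | hn⟩ := Nat.even_or_odd' N
      · have h1 := ih n (by omega)
        rw [hn, A_double h]
        have hn1 : (1 : ℝ) ≤ n := by
          have : 1 ≤ n := by omega
          exact_mod_cast this
        push_cast
        constructor
        · nlinarith [h1.1]
        · nlinarith [h1.2, mul_nonneg (by linarith : (0 : ℝ) ≤ (n : ℝ) - 1) (by linarith : (0 : ℝ) ≤ n)]
      · have h1 := ih n (by omega)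
        have h2 : op (2 * n + 1) = 2 * n + 1 := h.2.2 n
        rw [hn, A_succ, A_double h, h2]
        have hn0 : (0 : ℝ) ≤ n := Nat.cast_nonneg n
        push_cast
        constructor
        · nlinarith [h1.1, mul_nonneg hn0 hn0]
        · nlinarith [h1.2, mul_nonneg hn0 hn0]

theorem sg_eq (N : ℕ) : sg N = (4 / 3 * (N : ℝ) ^ 3 + 2 * (N : ℝ) ^ 2 + 2 / 3 * N - 3 * A N - N) / 12 := by
  unfold sg
  induction N with
  | zero => simp [A_zero]
  | succ n ih =>
    rw [Finset.sum_Icc_succ_top (by omega), ih, A_succ]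
    push_cast
    ring

end SG

theorem SG_thm (h : OPStmt) : SGStmt := by
  constructor
  · intro N
    rw [SG.sg_eq]
    have h1 := (SG.A_bounds h N).1
    rcases Nat.lt_or_ge N 2 with hN | hN
    · interval_cases N
      · rw [SG.A_zero]
        norm_num
      · have h2 : SG.A 1 = 1 := by
          rw [SG.A_succ, SG.A_zero]
          have h3 : op (2 * 0 + 1) = 2 * 0 + 1 := h.2.2 0
          norm_num at h3 ⊢
          rw [h3]
          norm_num
        rw [h2]
        norm_num
    · have hN2 : (2 : ℝ) ≤ N := by exact_mod_cast hN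
      have h3 : (0 : ℝ) ≤ (N : ℝ) ^ 3 := by positivity
      nlinarith [mul_nonneg (by linarith : (0 : ℝ) ≤ (N : ℝ) - 2) (by linarith : (0 : ℝ) ≤ (N : ℝ))]
  · intro N
    exact (SG.A_bounds h N).2

end Pool.Agent.H37.UM
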