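import Pool.Agent.H37.UM.Stmts

set_option autoImplicit false

namespace Pool.Agent.H37.UM

open PowerSeries Finset

namespace SUM

theorem df_zero (f : ℤ⟦X⟧) : df f 0 = coeff 0 f := by
  unfold df
  rw [sub_mul, one_mul, map_sub, coeff_zero_X_mul, sub_zero]

theorem df_succ (f : ℤ⟦X⟧) (k : ℕ) : df f (k + 1) = coeff (k + 1) f - coeff k f := by
  unfold df
  rw [sub_mul, one_mul, map_sub, coeff_succ_X_mul]

/-- the coefficients, extended by zero to the integers -/
noncomputable def G (g : ℤ⟦X⟧) (z : ℤ) : ℤ := if 0 ≤ z then coeff z.toNat g else 0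

theorem G_nat (g : ℤ⟦X⟧) (n : ℕ) : G g (n : ℤ) = coeff n g := by
  unfold G
  rw [if_pos (by omega), Int.toNat_natCast]

theorem G_neg (g : ℤ⟦X⟧) (z : ℤ) (hz : z < 0) : G g z = 0 := by
  unfold G
  rw [if_neg (by omega)]

theorem conv (h g : ℤ⟦X⟧) (M k : ℕ) (hM : ∀ i, M ≤ i → coeff i h = 0) :
    coeff k (h * g) = ∑ i ∈ range M, coeff i h * G g ((k : ℤ) - i) := by
  rw [coeff_mul, Finset.Nat.sum_antidiagonal_eq_sum_range_succ (fun i j => coeff i h * coeff j g)]
  have h1 : ∑ i ∈ range (k + 1), coeff i h * coeff (k - i) g =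
      ∑ i ∈ range (k + 1), coeff i h * G g ((k : ℤ) - i) := by
    refine Finset.sum_congr rfl fun i hi => ?_
    rw [Finset.mem_range] at hi
    have : ((k : ℤ) - i) = ((k - i : ℕ) : ℤ) := by omega
    rw [this, G_nat]
  rw [h1]
  have h2 : ∑ i ∈ range (k + 1), coeff i h * G g ((k : ℤ) - i) =
      ∑ i ∈ range (max M (k + 1)), coeff i h * G g ((k : ℤ) - i) := by
    refine Finset.sum_subset (fun i hi => ?_) (fun i _ hi => ?_)
    · rw [Finset.mem_range] at hi ⊢
      omega
    · rw [Finset.mem_range] at hi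
      rw [G_neg g _ (by omega), mul_zero]
  have h3 : ∑ i ∈ range M, coeff i h * G g ((k : ℤ) - i) =
      ∑ i ∈ range (max M (k + 1)), coeff i h * G g ((k : ℤ) - i) := by
    refine Finset.sum_subset (fun i hi => ?_) (fun i _ hi => ?_)
    · rw [Finset.mem_range] at hi ⊢
      omega
    · rw [Finset.mem_range] at hi
      rw [hM i (by omega), zero_mul]
  rw [h2, h3]

theorem G_symm {E : ℕ} {g : ℤ⟦X⟧} (hg : Sym E g) (z : ℤ) : G g ((E : ℤ) - z) = G g z := by
  rcases lt_or_ge z 0 with hz | hz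
  · rw [G_neg g z hz]
    have : ((E : ℤ) - z) = ((E + z.natAbs : ℕ) : ℤ) := by omega
    rw [this, G_nat]
    exact hg.top _ (by omega)
  · obtain ⟨n, rfl⟩ := Int.eq_ofNat_of_zero_le hz
    rw [G_nat]
    rcases le_or_gt n E with hn | hn
    · have : ((E : ℤ) - n) = ((E - n : ℕ) : ℤ) := by omega
      rw [this, G_nat]
      exact hg.sym n hn
    · rw [G_neg g _ (by omega), hg.top n hn]

theorem nonneg {D : ℕ} {f : ℤ⟦X⟧} (hf : SU D f) (k : ℕ) : 0 ≤ coeff k f := by
  have h1 : ∀ k, 2 * k ≤ D → 0 ≤ coeff k f := by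
    intro k
    induction k with
    | zero =>
      intro _
      have := hf.mono 0 (by omega)
      rw [df_zero] at this
      exact this
    | succ k ih =>
      intro hk
      have := hf.mono (k + 1) hk
      rw [df_succ] at this
      have := ih (by omega)
      omega
  rcases le_or_gt (2 * k) D with h | h
  · exact h1 k h
  · rcases le_or_gt k D with h2 | h2
    · rw [← hf.sym k h2]
      exact h1 _ (by omega)
    · rw [hf.top k h2]

theorem G_nonneg {D : ℕ} {f : ℤ⟦X⟧} (hf : SU D f) (z : ℤ) : 0 ≤ G f z := by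
  unfold G
  split_ifs
  · exact nonneg hf _
  · exact le_rfl

/-- monotonicity up to the centre -/
theorem coeff_mono {D : ℕ} {f : ℤ⟦X⟧} (hf : SU D f) (a b : ℕ) (hab : a ≤ b) (hb : 2 * b ≤ D) :
    coeff a f ≤ coeff b f := by
  induction b, hab using Nat.le_induction with
  | base => exact le_rfl
  | succ b _ ih =>
    have h1 := hf.mono (b + 1) hb
    rw [df_succ] at h1
    have := ih (by omega)
    omega

theorem G_mono {D : ℕ} {f : ℤ⟦X⟧} (hf : SU D f) (q p : ℤ) (hqp : q ≤ p) (hs : p + q ≤ D) :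
    G f q ≤ G f p := by
  rcases lt_or_ge q 0 with hq | hq
  · rw [G_neg f q hq]
    exact G_nonneg hf p
  · obtain ⟨a, rfl⟩ := Int.eq_ofNat_of_zero_le hq
    obtain ⟨b, rfl⟩ := Int.eq_ofNat_of_zero_le (hq.trans hqp)
    rcases le_or_gt (2 * b) D with h | h
    · rw [G_nat, G_nat]
      exact coeff_mono hf a b (by omega) h
    · have h1 := G_symm hf.toSym (b : ℤ)
      have h2 : ((D : ℤ) - b) = ((D - b : ℕ) : ℤ) := by omega
      rw [← h1, h2, G_nat, G_nat]
      exact coeff_mono hf a (D - b) (by omega) (by omega)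

theorem anti {D : ℕ} {f : ℤ⟦X⟧} (hf : Sym D f) (i : ℕ) (hi : i ≤ D + 1) :
    df f (D + 1 - i) = - df f i := by
  rcases Nat.eq_zero_or_pos i with h0 | h0
  · subst h0
    rw [Nat.sub_zero, df_succ, df_zero, hf.top (D + 1) (by omega)]
    have := hf.sym 0 (by omega)
    rw [Nat.sub_zero] at this
    rw [this]
    ring
  · obtain ⟨j, rfl⟩ := Nat.exists_eq_succ_of_ne_zero (by omega : i ≠ 0)
    rcases Nat.lt_or_ge D (j + 1) with h1 | h1
    · have h2 : j = D := by omega
      subst h2
      have h3 : j + 1 - (j.succ) = 0 := by omega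
      rw [h3, df_zero, Nat.succ_eq_add_one, df_succ, hf.top (j + 1) (by omega)]
      have := hf.sym 0 (by omega)
      rw [Nat.sub_zero] at this
      rw [this]
      ring
    · have h2 : D + 1 - j.succ = (D - (j + 1)) + 1 := by omega
      rw [h2, df_succ, Nat.succ_eq_add_one, df_succ]
      have h3 := hf.sym j (by omega)
      have h4 := hf.sym (j + 1) h1
      have h5 : D - (j + 1) + 1 = D - j := by omega
      rw [h5, h3, h4]
      ring

theorem symmul {D E : ℕ} {f g : ℤ⟦X⟧} (hf : Sym D f) (hg : Sym E g) : Sym (D + E) (f * g) := by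
  refine ⟨fun k hk => ?_, fun k hk => ?_⟩
  · rw [coeff_mul]
    refine Finset.sum_eq_zero fun p hp => ?_
    have hp := Finset.HasAntidiagonal.mem_antidiagonal.1 hp
    rcases Nat.lt_or_ge D p.1 with h | h
    · rw [hf.top _ h, zero_mul]
    · rw [hg.top p.2 (by omega), mul_zero]
  · rw [conv f g (D + 1) _ (fun i hi => hf.top i (by omega)),
      conv f g (D + 1) _ (fun i hi => hf.top i (by omega)),
      ← Finset.sum_range_reflect (fun i => coeff i f * G g ((k : ℤ) - i))]
    refine Finset.sum_congr rfl fun i hi => ?_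
    rw [Finset.mem_range] at hi
    have h1 : D + 1 - 1 - i = D - i := by omega
    rw [h1, hf.sym i (by omega), ← G_symm hg ((k : ℤ) - ((D - i : ℕ) : ℤ))]
    congr 2
    omega

theorem sumul {D E : ℕ} {f g : ℤ⟦X⟧} (hf : SU D f) (hg : SU E g) : SU (D + E) (f * g) := by
  refine ⟨symmul hf.toSym hg.toSym, fun k hk => ?_⟩
  have hdf0 : ∀ i, D + 2 ≤ i → coeff i ((1 - X) * f) = 0 := by
    intro i hi
    obtain ⟨j, rfl⟩ := Nat.exists_eq_succ_of_ne_zero (by omega : i ≠ 0)
    have := df_succ f j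
    unfold df at this
    rw [Nat.succ_eq_add_one, this, hf.top _ (by omega), hf.top _ (by omega), sub_zero]
  have h1 : df (f * g) k = ∑ i ∈ range (D + 2), df f i * G g ((k : ℤ) - i) := by
    unfold df
    rw [← mul_assoc, conv ((1 - X) * f) g (D + 2) k hdf0]
  have h2 : df (f * g) k = ∑ i ∈ range (D + 2), (- df f i) * G g ((k : ℤ) - D - 1 + i) := by
    rw [h1, ← Finset.sum_range_reflect (fun i => df f i * G g ((k : ℤ) - i))]
    refine Finset.sum_congr rfl fun i hi => ?_
    rw [Finset.mem_range] at hi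
    have h3 : D + 2 - 1 - i = D + 1 - i := by omega
    rw [h3, anti hf.toSym i (by omega)]
    congr 2
    omega
  have h3 : 0 ≤ df (f * g) k + df (f * g) k := by
    nth_rewrite 1 [h1]
    rw [h2, ← Finset.sum_add_distrib]
    refine Finset.sum_nonneg fun i hi => ?_
    rw [Finset.mem_range] at hi
    have h4 : df f i * G g ((k : ℤ) - i) + (- df f i) * G g ((k : ℤ) - D - 1 + i) =
        df f i * (G g ((k : ℤ) - i) - G g ((k : ℤ) - D - 1 + i)) := by ring
    rw [h4]
    rcases lt_trichotomy (2 * i) (D + 1) with h | h | h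
    · have h5 := hf.mono i (by omega)
      have h6 := G_mono hg ((k : ℤ) - D - 1 + i) ((k : ℤ) - i) (by omega) (by omega)
      exact mul_nonneg h5 (by omega)
    · have h5 : ((k : ℤ) - i) = (k : ℤ) - D - 1 + i := by omega
      rw [h5, sub_self, mul_zero]
    · have h5 := anti hf.toSym i (by omega)
      have h5' := hf.mono (D + 1 - i) (by omega)
      have h6 := G_mono hg ((k : ℤ) - i) ((k : ℤ) - D - 1 + i) (by omega) (by omega)
      exact mul_nonneg_of_nonpos_of_nonpos (by omega) (by omega)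
  omega

theorem coeff_iv (n k : ℕ) : coeff k (iv n) = if k < n then 1 else 0 := by
  unfold iv
  rw [map_sum]
  simp only [coeff_X_pow]
  rw [Finset.sum_ite_eq (range n) k]
  simp [Finset.mem_range]

theorem suiv (n : ℕ) : SU n (iv (n + 1)) := by
  refine ⟨⟨fun k hk => ?_, fun k hk => ?_⟩, fun k hk => ?_⟩
  · rw [coeff_iv, if_neg (by omega)]
  · rw [coeff_iv, coeff_iv, if_pos (by omega), if_pos (by omega)]
  · cases k with
    | zero =>
      rw [df_zero, coeff_iv, if_pos (by omega)]
      exact zero_le_one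
    | succ k =>
      rw [df_succ, coeff_iv, coeff_iv, if_pos (by omega), if_pos (by omega), sub_self]

theorem sushift (D s : ℕ) (f : ℤ⟦X⟧) (hf : SU D f) : SU (D + 2 * s) (X ^ s * f) := by
  have hc : ∀ k, coeff k (X ^ s * f) = if s ≤ k then coeff (k - s) f else 0 := by
    intro k
    rw [coeff_X_pow_mul']
  refine ⟨⟨fun k hk => ?_, fun k hk => ?_⟩, fun k hk => ?_⟩
  · rw [hc, if_pos (by omega), hf.top _ (by omega)]
  · rw [hc, hc]
    rcases Nat.lt_or_ge k s with h | h
    · rw [if_neg (by omega : ¬ s ≤ k), if_pos (by omega), hf.top _ (by omega)]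
    · rw [if_pos h]
      rcases Nat.lt_or_ge (D + s) k with h2 | h2
      · rw [if_neg (by omega), hf.top _ (by omega)]
      · rw [if_pos (by omega), ← hf.sym (k - s) (by omega)]
        congr 2
        omega
  · cases k with
    | zero =>
      rw [df_zero, hc]
      split_ifs
      · exact nonneg hf _
      · exact le_rfl
    | succ k =>
      rw [df_succ, hc, hc]
      rcases Nat.lt_or_ge k s with h | h
      · rw [if_neg (by omega : ¬ s ≤ k), sub_zero]
        split_ifs
        · exact nonneg hf _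
        · exact le_rfl
      · rw [if_pos h, if_pos (by omega)]
        have := coeff_mono hf (k - s) (k + 1 - s) (by omega) (by omega)
        omega

theorem suadd (D : ℕ) (f g : ℤ⟦X⟧) (hf : SU D f) (hg : SU D g) : SU D (f + g) := by
  refine ⟨⟨fun k hk => ?_, fun k hk => ?_⟩, fun k hk => ?_⟩
  · rw [map_add, hf.top k hk, hg.top k hk, add_zero]
  · rw [map_add, map_add, hf.sym k hk, hg.sym k hk]
  · have h1 := hf.mono k hk
    have h2 := hg.mono k hk
    unfold df at h1 h2 ⊢
    rw [mul_add, map_add]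
    omega

end SUM

theorem SUM_thm : SUMStmt :=
  ⟨fun _ _ _ _ hf hg => SUM.sumul hf hg, fun _ _ _ _ hf hg => SUM.symmul hf hg, SUM.suiv,
    SUM.sushift, SUM.suadd, fun _ _ k hf => SUM.nonneg hf k⟩

end Pool.Agent.H37.UM
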